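import Mathlib

/-!
# MP_664f87_an: `(1 + k + k ^ 2) / k!` is not a complex zero decreasing sequence

If `γ` is a complex zero decreasing sequence with positive terms, then the inverse operator maps every
positive polynomial to a polynomial without real zeros, so `q ↦ ∑ q_k / γ_k` is non-negative on
squares, i.e. the sequence `k! / (1 + k + k ^ 2)` would be a (Hamburger) moment sequence.  It is not:
its representing density `∫_1^∞ e ^ (-t s) s ^ (-1/2) (2/√3) sin (√3/2 log s) ds` oscillates in sign as
`t → 0`.  Concretely the Hankel form of order `37` takes a negative value at the explicit integer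
vector `gl` below (a rounding of the orthogonal polynomial of degree `36`), and the counterexample is a
polynomial of degree `72`.
-/

set_option autoImplicit false

namespace Pool.Agent.Results.MP_664f87_an.NotCZDS

open Polynomial

/-- Number of non-real zeros, with multiplicity, of a real polynomial. -/
noncomputable def Zc (p : ℝ[X]) : ℕ :=
  ((p.map (algebraMap ℝ ℂ)).roots.filter (fun z : ℂ => z.im ≠ 0)).card

/-- The operator `∑ a_k x ^ k ↦ ∑ γ_k a_k x ^ k`. -/
noncomputable def diag (γ : ℕ → ℝ) (f : ℝ[X]) : ℝ[X] :=
  f.sum fun k a => monomial k (γ k * a)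

/-- `γ` is a complex zero decreasing sequence. -/
def IsCZDS (γ : ℕ → ℝ) : Prop := ∀ f : ℝ[X], Zc (diag γ f) ≤ Zc f

lemma coeff_diag (g : ℕ → ℝ) (f : ℝ[X]) (k : ℕ) : (diag g f).coeff k = g k * f.coeff k := by
  unfold diag
  rw [Polynomial.sum_def, Polynomial.finsetSum_coeff]
  simp only [coeff_monomial]
  rw [Finset.sum_ite_eq' f.support k]
  split_ifs with h
  · rfl
  · rw [notMem_support_iff.mp h, mul_zero]

/-- Coefficients of the polynomial `g`. -/
def gl : List ℤ :=
  [100000000000000000000000000000000000000000000000000000,
   -2521454835668668628984959775001555083140792577067662650,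
   19816377032685850945193769656844151031789477640712563919,
   -72876477483764755275299106920232908840375537098965794008,
   151409296511699860381124264695217831120529404562402159572,
   -198458425936039227599705071926691260854886365406926550269,
   176467012839428905673229597178839709868258359885660011918,
   -112040710413638252581619471982358823497910312291716055004,
   52755707745008460916158074363066862589624857610304812739,
   -18965225348648800729438843053937766328028519177088425992,
   5325444487882866684338476230943458685270483421840684443,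
   -1189612220733200243481030826243989782769882235311524217,
   214564881466140365893584748875193363309603690481589695,
   -31630591792895233886423696270463017888504790756458361,
   3849601733444540309943226570334780337216635422920104,
   -390021336234968045262007614033321675662914223006502,
   33120051810872854787091227899314576527509613098902,
   -2370502196206523231745747476420644293966925705382,
   143637530330313600593234476237350019026781478132,
   -7393752366782821008966504292629480065461474079,
   324123778310488756801728618797955186499554734,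
   -12119603012246129791527386215143135907272186,
   386797354076791529928771419479538307972054,
   -10533488541028303263658731363039222082702,
   244450248127718537918595986135326180718,
   -4822626062466973114220788218241999775,
   80580312209765574086740900883359884,
   -1134281221669122477587206160153340,
   13353600481935616094199797854364,
   -130192738990868556599513342260,
   1037267254768734664853495836,
   -6630268392413260903515192,
   33127421414164839738930,
   -124448395120023790769,
   330152093356763282,
   -550768775563460,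
   434043716512]

/-- `i`-th coefficient. -/
def gi (i : ℕ) : ℤ := gl.getD i 0

/-- A common multiple of the numbers `1 + k + k ^ 2`, `k ≤ 72`. -/
def D : ℕ := 6510507207894966225511877551837709523165984768422160428641215602048813114515866228735237408797119144042745258210053875206546262282879

/-- `k! * D / (1 + k + k ^ 2)`. -/
def W (k : ℕ) : ℕ := Nat.factorial k * D / (1 + k + k ^ 2)

lemma W_spec : ∀ k < 73, W k * (1 + k + k ^ 2) = Nat.factorial k * D := by decide +kernel

lemma sum_neg : (∑ i ∈ Finset.range 37, ∑ j ∈ Finset.range 37, gi i * gi j * (W (i + j) : ℤ))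
    < -(D : ℤ) := by decide +kernel

/-- The reciprocal sequence `k! / (1 + k + k ^ 2)`. -/
noncomputable def δ (k : ℕ) : ℝ := (Nat.factorial k : ℝ) / (1 + k + (k : ℝ) ^ 2)

/-- `∑ g_i x ^ i`. -/
noncomputable def G : ℝ[X] := ∑ i ∈ Finset.range 37, C (gi i : ℝ) * X ^ i

lemma den_pos (k : ℕ) : (0 : ℝ) < 1 + k + (k : ℝ) ^ 2 := by positivity

lemma diag_add (γ : ℕ → ℝ) (p q : ℝ[X]) : diag γ (p + q) = diag γ p + diag γ q := by
  ext k; rw [coeff_add, coeff_diag, coeff_diag, coeff_diag, coeff_add]; ring

lemma diag_sum (γ : ℕ → ℝ) (s : Finset ℕ) (p : ℕ → ℝ[X]) :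
    diag γ (∑ i ∈ s, p i) = ∑ i ∈ s, diag γ (p i) := by
  ext k
  rw [coeff_diag, finsetSum_coeff, finsetSum_coeff, Finset.mul_sum]
  exact Finset.sum_congr rfl fun i _ => (coeff_diag _ _ _).symm

lemma eval_one_monomial (γ : ℕ → ℝ) (c : ℝ) (n : ℕ) :
    (diag γ (C c * X ^ n)).eval 1 = c * γ n := by
  have : diag γ (C c * X ^ n) = C (c * γ n) * X ^ n := by
    ext k
    rw [coeff_diag, coeff_C_mul_X_pow, coeff_C_mul_X_pow]
    split_ifs with h
    · rw [h]; ring
    · ring
  rw [this]; simp

lemma G_sq : G ^ 2 = ∑ i ∈ Finset.range 37, ∑ j ∈ Finset.range 37,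
    C ((gi i : ℝ) * (gi j : ℝ)) * X ^ (i + j) := by
  rw [sq, G, Finset.sum_mul_sum]
  refine Finset.sum_congr rfl fun i _ => Finset.sum_congr rfl fun j _ => ?_
  rw [C_mul, pow_add]; ring

lemma eval_at_one : (diag δ (G ^ 2 + 1)).eval 1 =
    (∑ i ∈ Finset.range 37, ∑ j ∈ Finset.range 37, (gi i : ℝ) * (gi j : ℝ) * δ (i + j)) + 1 := by
  rw [diag_add, eval_add, G_sq, diag_sum, eval_finsetSum]
  congr 1
  · refine Finset.sum_congr rfl fun i _ => ?_
    rw [diag_sum, eval_finsetSum]
    exact Finset.sum_congr rfl fun j _ => eval_one_monomial _ _ _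
  · have h := eval_one_monomial δ 1 0
    rw [C_1, one_mul, pow_zero] at h
    rw [h, δ]; simp

lemma W_real (k : ℕ) (hk : k < 73) : (D : ℝ) * δ k = (W k : ℝ) := by
  have h := W_spec k hk
  have h' : (W k : ℝ) * (1 + k + (k : ℝ) ^ 2) = (Nat.factorial k : ℝ) * D := by exact_mod_cast h
  rw [δ, mul_div_assoc', div_eq_iff (den_pos k).ne', h']; ring

lemma eval_one_neg : (diag δ (G ^ 2 + 1)).eval 1 < 0 := by
  have hD : (0 : ℝ) < D := by
    have : 0 < D := by decide +kernel
    exact_mod_cast this
  have h : (D : ℝ) * (diag δ (G ^ 2 + 1)).eval 1 < 0 := by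
    rw [eval_at_one, mul_add, mul_one, Finset.mul_sum]
    have e : ∀ i ∈ Finset.range 37, (D : ℝ) * ∑ j ∈ Finset.range 37,
        (gi i : ℝ) * (gi j : ℝ) * δ (i + j) =
        ∑ j ∈ Finset.range 37, (gi i : ℝ) * (gi j : ℝ) * (W (i + j) : ℝ) := by
      intro i hi
      rw [Finset.mul_sum]
      refine Finset.sum_congr rfl fun j hj => ?_
      rw [Finset.mem_range] at hi hj
      rw [← W_real (i + j) (by omega)]; ring
    rw [Finset.sum_congr rfl e]
    have hs := sum_neg
    have hs' : ((∑ i ∈ Finset.range 37, ∑ j ∈ Finset.range 37,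
        gi i * gi j * (W (i + j) : ℤ) : ℤ) : ℝ) < ((-(D : ℤ) : ℤ) : ℝ) := by exact_mod_cast hs
    push_cast at hs'
    linarith
  by_contra hc
  rw [not_lt] at hc
  have := mul_nonneg hD.le hc
  linarith

/-- Real roots and non-real roots. -/
lemma nonreal_add_real (g : ℝ[X]) : Zc g + g.roots.card = g.natDegree := by
  classical
  unfold Zc
  have hinj : Function.Injective (algebraMap ℝ ℂ) := (algebraMap ℝ ℂ).injective
  have h1 : (g.map (algebraMap ℝ ℂ)).roots.card = g.natDegree :=
    IsAlgClosed.card_roots_map_eq_natDegree_of_injective _ hinj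
  have h2 : (g.map (algebraMap ℝ ℂ)).roots.filter (fun z : ℂ => ¬ z.im ≠ 0)
      = g.roots.map (algebraMap ℝ ℂ) := by
    ext z
    by_cases hz : z.im ≠ 0
    · rw [Multiset.count_filter_of_neg (by simpa using hz)]
      symm
      rw [Multiset.count_eq_zero]
      intro hmem
      obtain ⟨x, _, hx⟩ := Multiset.mem_map.mp hmem
      apply hz
      rw [← hx]; simp
    · rw [Multiset.count_filter_of_pos (by simpa using hz)]
      push Not at hz
      obtain ⟨x, rfl⟩ : ∃ x : ℝ, (algebraMap ℝ ℂ) x = z := ⟨z.re, by
        apply Complex.ext <;> simp [hz]⟩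
      rw [count_roots, Multiset.count_map_eq_count' _ _ hinj, count_roots,
        ← eq_rootMultiplicity_map hinj]
  have h3 := Multiset.filter_add_not (fun z : ℂ => z.im ≠ 0) (g.map (algebraMap ℝ ℂ)).roots
  have h4 := congrArg Multiset.card h3
  rw [Multiset.card_add, h2, Multiset.card_map, h1] at h4
  exact h4

/-- Q1 of MP_664f87_an: the sequence `(1 + k + k ^ 2) / k!` is not a complex zero decreasing
sequence. -/
theorem result : ¬ IsCZDS (fun k => (1 + (k : ℝ) + (k : ℝ) ^ 2) / (Nat.factorial k : ℝ)) := by
  intro H
  set P : ℝ[X] := G ^ 2 + 1 with hP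
  set f : ℝ[X] := diag δ P with hf
  have hpos : ∀ x : ℝ, 0 < P.eval x := by
    intro x
    rw [hP, eval_add, eval_pow, eval_one]
    positivity
  have hinv : diag (fun k => (1 + (k : ℝ) + (k : ℝ) ^ 2) / (Nat.factorial k : ℝ)) f = P := by
    ext k
    rw [coeff_diag, hf, coeff_diag, δ]
    have h1 := (den_pos k).ne'
    have h2 : (Nat.factorial k : ℝ) ≠ 0 := by exact_mod_cast Nat.factorial_ne_zero k
    field_simp
  have hP0 : P ≠ 0 := by
    intro h; have := hpos 0; rw [h, eval_zero] at this; exact lt_irrefl _ this
  have hf0 : f ≠ 0 := by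
    intro h
    have := eval_one_neg
    rw [← hP, ← hf, h, eval_zero] at this
    exact lt_irrefl _ this
  have hdeg : f.natDegree ≤ P.natDegree := by
    rw [natDegree_le_iff_coeff_eq_zero]
    intro n hn
    rw [hf, coeff_diag, coeff_eq_zero_of_natDegree_lt hn, mul_zero]
  have hProots : P.roots.card = 0 := by
    rw [Multiset.card_eq_zero]
    refine Multiset.eq_zero_of_forall_notMem fun x hx => ?_
    have := (mem_roots hP0).mp hx
    rw [IsRoot.def] at this
    exact (hpos x).ne' this
  have hroot : ∃ x : ℝ, f.eval x = 0 := by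
    have h0 : 0 < f.eval 0 := by
      rw [← coeff_zero_eq_eval_zero, hf, coeff_diag, coeff_zero_eq_eval_zero, δ]
      have := hpos 0
      simp only [Nat.factorial_zero, Nat.cast_one, Nat.cast_zero]
      norm_num
      exact this
    have h1 : f.eval 1 < 0 := eval_one_neg
    have hc : ContinuousOn (fun x => f.eval x) (Set.Icc 0 1) := f.continuous.continuousOn
    have := intermediate_value_Icc' (by norm_num : (0 : ℝ) ≤ 1) hc
    obtain ⟨x, _, hx⟩ := this ⟨h1.le, h0.le⟩
    exact ⟨x, hx⟩
  obtain ⟨x, hx⟩ := hroot
  have hcard : 0 < f.roots.card := Multiset.card_pos.mpr fun h => by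
    have : x ∈ f.roots := (mem_roots hf0).mpr hx
    rw [h] at this
    exact Multiset.notMem_zero _ this
  have a1 := nonreal_add_real P
  have a2 := nonreal_add_real f
  have a3 := H f
  rw [hinv] at a3
  omega

end Pool.Agent.Results.MP_664f87_an.NotCZDS
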